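import Mathlib
import Pool.Agent.R463.ChenG

/-!
# Chen's theorem for differences, under sieve conditions of any dimension

For EVERY even `N`: the primes `p` for which `p + N` is a product of at most two primes, and which avoid,
for EVERY prime `q ≤ X ^ (1 / t)`, up to `r` arbitrary residue classes modulo `q`. Their number has the
expected order of magnitude in all long windows, and each dense subset contains arithmetic progressions
of any length with differences at most a power of `log X`; everything is uniform in `N ≤ X` and in the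
residue classes.
-/

set_option autoImplicit false

open Finset Filter

namespace Pool.Agent.Results.MP_70e905_nt.ChenDifferences

/-- the number of the residues `m` modulo `q` such that `q` divides `m` or `m + N`, or `m ≡ a`
modulo `q` for some `a ∈ F q` -/
def nu (N : ℕ) (F : ℕ → Finset ℤ) (q : ℕ) : ℕ :=
  ((range q).filter (fun m : ℕ => q ∣ m ∨ q ∣ m + N ∨ ∃ a ∈ F q, (q : ℤ) ∣ m - a)).card

/-- at most `r` forbidden classes modulo each prime, and no local obstruction -/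
def Sys (r N : ℕ) (F : ℕ → Finset ℤ) : Prop :=
  ∀ q : ℕ, q.Prime → (F q).card ≤ r ∧ nu N F q < q

/-- the sieve product over the primes `q ≤ X` -/
noncomputable def V (N : ℕ) (F : ℕ → Finset ℤ) (X : ℕ) : ℝ :=
  ∏ q ∈ (Icc 1 X).filter Nat.Prime, (1 - (nu N F q : ℝ) / q)

open Classical in
/-- the primes `p` in `(A, B]`, `p > X ^ (1/t)`, such that `p + N` is a product of at most two primes, all
of them `> X ^ (1/9)` and `> X ^ (1/t)`, and `p` is not in the class of any element of `F q` modulo `q`,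
for all primes `q ≤ X ^ (1/t)` -/
noncomputable def G (t N X A B : ℕ) (F : ℕ → Finset ℤ) : Finset ℕ :=
  (Ioc A B).filter (fun p : ℕ => p.Prime ∧ (X : ℝ) ^ (1 / (t : ℝ)) < p ∧
    (p + N).primeFactorsList.length ≤ 2 ∧
    (∀ q : ℕ, q.Prime → q ∣ p + N → (X : ℝ) ^ (1 / 9 : ℝ) < q ∧ (X : ℝ) ^ (1 / (t : ℝ)) < q) ∧
    ∀ q : ℕ, q.Prime → (q : ℝ) ≤ (X : ℝ) ^ (1 / (t : ℝ)) → ∀ a ∈ F q, ¬ (q : ℤ) ∣ p - a)

lemma cast_dvd (N q m : ℕ) : (q : ℤ) ∣ 1 * (m : ℤ) + (N : ℤ) ↔ q ∣ m + N := by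
  rw [one_mul, ← Nat.cast_add, Int.natCast_dvd_natCast]

lemma nu_eq (N : ℕ) (F : ℕ → Finset ℤ) (q : ℕ) : nu N F q = Pool.Agent.R463.CG.nu 1 N F q := by
  classical
  unfold nu Pool.Agent.R463.CG.nu
  congr 1
  ext m
  simp only [mem_filter, cast_dvd, Int.natCast_dvd_natCast]

lemma V_eq (N : ℕ) (F : ℕ → Finset ℤ) (X : ℕ) : V N F X = Pool.Agent.R463.CG.V 1 N F X := by
  unfold V Pool.Agent.R463.CG.V
  simp only [nu_eq]

lemma G_eq (t N X A B : ℕ) (F : ℕ → Finset ℤ) : G t N X A B F = Pool.Agent.R463.CG.G 1 N t X A B F := by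
  classical
  unfold G Pool.Agent.R463.CG.G
  apply filter_congr
  intro p hp
  rw [mem_Ioc] at hp
  have e : (1 * (p : ℤ) + (N : ℤ)).natAbs = p + N := by omega
  rw [e]
  simp only [cast_dvd]
  constructor
  · rintro ⟨h1, h2, h3, h4, h5⟩
    exact ⟨h1, h2, by have := h1.pos; omega, h3, h4, h5⟩
  · rintro ⟨h1, h2, -, h3, h4, h5⟩
    exact ⟨h1, h2, h3, h4, h5⟩

/-- **Chen's theorem for differences under sieve conditions of dimension `r`.**  For every `r` there are
`t ≥ 1` and `c > 0` such that for `θ > 0` and large `X`, uniformly for ALL `0 < N ≤ X`, ALL systems `F` of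
at most `r` classes modulo each prime without local obstruction (then `N` is even) and all intervals
`(A, B]` with `B ≤ X` and `B - A ≥ θ X`: (1) the set `G` has at least `c (B - A) V` elements;
(2) for all `k` and `δ > 0` there is `D` such that every subset of `G` with at least `δ |G|` elements
contains a progression of `k` terms with difference at most `(log X) ^ D`, if `X` is large. -/
theorem result (r : ℕ) : ∃ t : ℕ, 1 ≤ t ∧ ∃ c : ℝ, 0 < c ∧
    (∀ θ : ℝ, 0 < θ → ∃ X₀ : ℕ, ∀ X : ℕ, X₀ ≤ X → ∀ N : ℕ, 0 < N → N ≤ X → ∀ F : ℕ → Finset ℤ,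
      Sys r N F → ∀ A B : ℕ, B ≤ X → θ * X ≤ (B : ℝ) - A →
      c * ((B : ℝ) - A) * V N F X ≤ ((G t N X A B F).card : ℝ)) ∧
    (∀ k : ℕ, ∀ θ δ : ℝ, 0 < θ → 0 < δ → ∃ D X₀ : ℕ, ∀ X : ℕ, X₀ ≤ X → ∀ N : ℕ, 0 < N → N ≤ X →
      ∀ F : ℕ → Finset ℤ, Sys r N F → ∀ A B : ℕ, B ≤ X → θ * X ≤ (B : ℝ) - A →
      ∀ S : Finset ℕ, S ⊆ G t N X A B F → δ * ((G t N X A B F).card : ℝ) ≤ S.card →
        ∃ a d : ℕ, 1 ≤ d ∧ (d : ℝ) ≤ Real.log X ^ D ∧ ∀ j < k, a + j * d ∈ S) := by
  obtain ⟨t, ht, c, hc, H1, H2⟩ := Pool.Agent.R463.CG.chen 1 (by norm_num) r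
  have hs : ∀ (N : ℕ) (F : ℕ → Finset ℤ), Sys r N F → Pool.Agent.R463.CG.Sys r 1 N F := by
    intro N F hF q hq
    refine ⟨(hF q hq).1, ?_⟩
    rw [← nu_eq]
    exact (hF q hq).2
  have hX : ∀ N X : ℕ, N ≤ X → |(N : ℤ)| ≤ X := by
    intro N X h
    rw [abs_of_nonneg (by positivity)]
    exact_mod_cast h
  refine ⟨t, ht, c, hc, ?_, ?_⟩
  · intro θ hθ
    obtain ⟨X₀, H⟩ := H1 θ hθ
    refine ⟨X₀, fun X hX0 N hN hNX F hF A B hB hAB => ?_⟩
    rw [V_eq, G_eq]
    exact H X hX0 N (by omega) (hX N X hNX) F (hs N F hF) A B hB hAB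
  · intro k θ δ hθ hδ
    obtain ⟨D, X₀, H⟩ := H2 k θ δ hθ hδ
    refine ⟨D, X₀, fun X hX0 N hN hNX F hF A B hB hAB S hS hSc => ?_⟩
    rw [G_eq] at hS hSc
    exact H X hX0 N (by omega) (hX N X hNX) F (hs N F hF) A B hB hAB S hS hSc

end Pool.Agent.Results.MP_70e905_nt.ChenDifferences
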