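import Mathlib
import Pool.Agent.R463.Pair

set_option autoImplicit false

/-!
# The gap laws for almost prime pairs `m`, `m + N` in arithmetic progressions

For EVERY even difference `N` (as large as a power of `X`) and every admissible residue class `a` modulo
`q`: the `m ≡ a (mod q)` for which neither `m` nor `m + N` has a prime factor `≤ X ^ (1 / r)`. The
distances to the `l`-th predecessors have the distribution of the Poisson process, in ALL intervals of
length at least `X ^ θ` (in the progression).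
-/

namespace Pool.Agent.Results.MP_70e905_nt.GapLaws

open Finset Filter
open Pool.Agent.R463.PS

/-- for `m = q n + a` neither `m` nor `m + N` has a prime factor `p ≤ X ^ (1 / r)` -/
def Good (N q a X r n : ℕ) : Prop :=
  ∀ p : ℕ, p.Prime → (p : ℝ) ≤ (X : ℝ) ^ (1 / (r : ℝ)) →
    ¬ (p : ℤ) ∣ (q : ℤ) * n + a ∧ ¬ (p : ℤ) ∣ (q : ℤ) * n + a + N

/-- `0` for the prime factors of `q`, `1` for the other prime factors of `N`, `2` for the other primes -/
def nu (N q p : ℕ) : ℕ := if p ∣ q then 0 else if p ∣ N then 1 else 2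

/-- the density: the product of `1 - nu(p) / p` over the primes `p ≤ X ^ (1 / r)` -/
noncomputable def V (N q X r : ℕ) : ℝ :=
  ∏ p ∈ (Icc 1 ⌊(X : ℝ) ^ (1 / (r : ℝ))⌋₊).filter Nat.Prime, (1 - (nu N q p : ℝ) / p)

open Classical in
/-- the number of the good `b` in `(Z, Z + Y]` for which fewer than `l` of the integers in `[b - T, b)`
are good -/
noncomputable def Far (N q a X r l T Z Y : ℕ) : ℕ :=
  ((Ioc Z (Z + Y)).filter (fun b => Good N q a X r b ∧
    ((Ico (b - T) b).filter (fun n => Good N q a X r n)).card < l)).card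

lemma good_iff (N q a X r n : ℕ) : Good N q a X r n ↔ Sifted (Pool.Agent.Y879.GL.pf 1 N q a) X r n := by
  rw [pair_sift]
  unfold Good
  have e : (1 : ℤ) * (q * n + a) + N = q * n + a + N := by ring
  rw [e]

lemma V_eq (N q a X r : ℕ) (hqa : Nat.Coprime q a) (hqf : IsCoprime (q : ℤ) (1 * a + (N : ℤ))) :
    V N q X r = Pool.Agent.R463.PS.V (Pool.Agent.Y879.GL.pf 1 N q a) X r := by
  unfold V Pool.Agent.R463.PS.V
  apply prod_congr rfl
  intro p hp
  rw [pair_om 1 N (by norm_num) q a p (mem_filter.1 hp).2 hqa hqf]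
  unfold nu
  simp only [Int.natCast_dvd_natCast]

lemma Far_eq (N q a X r l T Z Y : ℕ) :
    Far N q a X r l T Z Y = Pool.Agent.R463.PS.Far (Pool.Agent.Y879.GL.pf 1 N q a) X r l T Z Y := by
  classical
  unfold Far Pool.Agent.R463.PS.Far
  congr 1
  apply filter_congr
  intro b _
  rw [good_iff]
  have : (Ico (b - T) b).filter (fun n => Good N q a X r n) =
      (Ico (b - T) b).filter (fun n => Sifted (Pool.Agent.Y879.GL.pf 1 N q a) X r n) :=
    filter_congr fun n _ => good_iff N q a X r n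
  rw [this]

/-- **The gap laws for almost prime pairs with a given difference.** For `A, δ, θ > 0`, `l₀`, `x₀` and `ε > 0`
there is `r₀` such that for all `r ≥ r₀` and all large `X` the following holds uniformly for ALL even
`N ≤ X ^ A` and all moduli `q` and residues `a ≤ X ^ A` with `q X ^ δ < N` and `q` prime to `a` and to
`a + N`, and for ALL intervals `(Z, Z + Y]` with `Y ≥ X ^ θ`: the number `Far` of the good `b` in the
interval, with fewer than `l` good integers in `[b - T, b)`, is the value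
`Y V ∑_{j < l} exp (- T V) (T V) ^ j / j!` for the Poisson process of density `V`, up to `ε Y V`, for all
`l ≤ l₀` and all `T`, and for all `l` and all `T ≤ x₀ / V`. (For `T = 0`, `l = 1` this is the number of
the good integers in the interval.) -/
theorem result (A δ θ : ℝ) (hA : 0 < A) (hδ : 0 < δ) (hθ : 0 < θ) (l₀ : ℕ) (x₀ ε : ℝ) (hε : 0 < ε) :
    ∃ r₀ : ℕ, ∀ r : ℕ, r₀ ≤ r → ∀ᶠ X : ℕ in atTop, ∀ N q a : ℕ, Even N → (N : ℝ) ≤ (X : ℝ) ^ A →
      1 ≤ q → (a : ℝ) ≤ (X : ℝ) ^ A → (q : ℝ) * (X : ℝ) ^ δ < N → Nat.Coprime q a →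
      IsCoprime (q : ℤ) ((a : ℤ) + N) →
      ∀ Z Y : ℕ, (X : ℝ) ^ θ ≤ Y → ∀ l T : ℕ, (l ≤ l₀ ∨ T * V N q X r ≤ x₀) →
        |(Far N q a X r l T Z Y : ℝ) - Y * V N q X r *
          ∑ j ∈ range l, Real.exp (-(T * V N q X r)) * (T * V N q X r) ^ j / j.factorial| ≤
          ε * (Y * V N q X r) := by
  obtain ⟨r₀, h⟩ := gaps 2 1 (A + 1) δ θ (by linarith) hδ hθ l₀ x₀ ε hε
  refine ⟨max r₀ 2, fun r hr => ?_⟩
  obtain ⟨M, hM, hV⟩ := pair_V A hA δ r ((le_max_right _ _).trans hr)
  filter_upwards [h r ((le_max_left _ _).trans hr) M, hV, pair_sys A hA δ, eventually_ge_atTop 1]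
    with X h1 h2 h3 h4 N q a hN hNX hq haX hqN hqa hqf Z Y hY l T hT
  have hX1 : (1 : ℝ) ≤ X := by exact_mod_cast h4
  have hXδ : (1 : ℝ) ≤ (X : ℝ) ^ δ := Real.one_le_rpow hX1 hδ.le
  have hq0 : (0 : ℝ) ≤ q := Nat.cast_nonneg _
  have hqN' : (q : ℝ) ≤ N := by nlinarith
  have hqX : (q : ℝ) ≤ (X : ℝ) ^ A := hqN'.trans hNX
  have hq1 : (1 : ℝ) ≤ q := by exact_mod_cast hq
  have hN0 : (0 : ℝ) < N := by linarith
  have hN0' : N ≠ 0 := by
    rintro rfl
    simp at hN0
  have e1 : (1 : ℤ) * a + (N : ℤ) = a + N := by ring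
  have habs : |(((N : ℕ) : ℤ) : ℝ)| = N := by
    rw [Int.cast_natCast, abs_of_pos hN0]
  have hok : PairOK X A δ 1 (N : ℤ) q a :=
    { he := by norm_num
      hf := by exact_mod_cast hN
      hf0 := by exact_mod_cast hN0'
      hfX := by rw [habs]; exact hNX
      hq := hq
      hqX := hqX
      haX := haX
      hqa := hqa
      hqf := by rw [e1]; exact hqf }
  have hVe := V_eq N q a X r hqa (by rw [e1]; exact hqf)
  rw [hVe] at hT ⊢
  rw [Far_eq]
  exact h1 _ (h3 1 N q a hok (by rw [habs]; exact hqN)) (h2 1 N q a hok) Z Y hY l T hT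

end Pool.Agent.Results.MP_70e905_nt.GapLaws
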