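import Mathlib
import Pool.Agent.R463.EF8

set_option autoImplicit false

/-!
# The most frequent differences between consecutive integers without small prime factors

For the integers without prime factors `p ≤ y`, in every interval longer than a fixed power of `y`: the most
frequent differences between consecutive elements, and even all differences which are almost as frequent, are
divisible by every fixed prime and are smaller than every fixed multiple of `log y`.
-/

namespace Pool.Agent.Results.MP_70e905_nt.MostFrequentGaps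

open Finset Pool.Agent.H373R2.T7 Pool.Agent.W123.RP Pool.Agent.W123.RU Pool.Agent.TH464.PO
open Pool.Agent.R463.EX

/-- `n` has no prime factor `p ≤ y` -/
def Rough (y n : ℕ) : Prop := ∀ p : ℕ, p.Prime → p ≤ y → ¬ p ∣ n

/-- The number of the `n` in `(z, z + Y]` such that `n` and `n + h` are consecutive elements of `Rough y`. -/
noncomputable def gaps (y z Y h : ℕ) : ℕ :=
  Set.ncard {n : ℕ | z < n ∧ n ≤ z + Y ∧ Rough y n ∧ Rough y (n + h) ∧
    ∀ j : ℕ, 0 < j → j < h → ¬ Rough y (n + j)}

lemma rough_iff (y n : ℕ) : Sf Qi y n ↔ Rough y n := by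
  constructor
  · intro h p hp hpy hd
    exact h p (mem_pz.2 ⟨hpy, hp⟩) hd
  · intro h p hp hd
    obtain ⟨h1, h2⟩ := mem_pz.1 hp
    exact h p h2 h1 hd

lemma gaps_eq (y z Y h : ℕ) : Gp y z Y h = gaps y z Y h := by
  classical
  unfold Gp exN gaps
  rw [← Set.ncard_coe_finset]
  congr 1
  ext n
  simp only [coe_filter, mem_Icc, Set.mem_ofPred_eq, rough_iff, mem_insert, mem_singleton]
  constructor
  · rintro ⟨⟨h1, h2⟩, h3⟩
    refine ⟨by omega, h2, ?_, (h3 h le_rfl).2 (Or.inr rfl), ?_⟩
    · have := (h3 0 (Nat.zero_le _)).2 (Or.inl rfl)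
      rwa [add_zero] at this
    · intro j hj1 hj2 hj3
      rcases (h3 j hj2.le).1 hj3 with h4 | h4 <;> omega
  · rintro ⟨h1, h2, h3, h4, h5⟩
    refine ⟨⟨by omega, h2⟩, ?_⟩
    intro j hj
    constructor
    · intro h6
      by_contra hcon
      push Not at hcon
      exact h5 j (by omega) (by omega) h6
    · rintro (h6 | h6)
      · rw [h6, add_zero]
        exact h3
      · rw [h6]
        exact h4

/-- **The most frequent differences.** For every `M` there are `c > 0`, `s` and `y₀` such that for all
`y ≥ y₀` and all intervals `(z, z + Y]` of length `Y ≥ y ^ s`: every `h ≥ 1` which is the difference between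
an integer of the interval without prime factors `p ≤ y` and the next such integer at least `1 - c` times as
often as every other `h'` - in particular every most frequent difference - is divisible by all primes
`q ≤ M` and is at most `log y / M`. -/
theorem result (M : ℕ) : ∃ c : ℝ, 0 < c ∧ ∃ s y₀ : ℕ, ∀ y : ℕ, y₀ ≤ y → ∀ z Y : ℕ, y ^ s ≤ Y →
    ∀ h : ℕ, 1 ≤ h → (∀ h' : ℕ, 1 ≤ h' → (1 - c) * gaps y z Y h' ≤ gaps y z Y h) →
      (∀ q : ℕ, q.Prime → q ≤ M → q ∣ h) ∧ M * h ≤ Real.log y := by
  obtain ⟨c, hc, _, s, y0, h0⟩ := champ M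
  refine ⟨c, hc, s, y0, ?_⟩
  intro y hy z Y hY h hh1 hmax
  exact h0 y hy z Y hY h hh1 (fun h' hh' => by
    rw [gaps_eq, gaps_eq]
    exact hmax h' hh')

end Pool.Agent.Results.MP_70e905_nt.MostFrequentGaps
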