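import Pool.Agent.R460.GP.Conv

/-!
# Differences of two primes: almost all even numbers in the residue classes of EVERY modulus up to
`x ^ (7 / 10 - ρ)`, with primes in every window

For every modulus `q ≤ x ^ (7 / 10 - ρ)` and every residue class `a` modulo `q` such that the greatest common
divisor of `a` and `q` is at most a fixed power of `log x`, all but at most `x / (q (log x) ^ A)` of the even
integers `h ≤ x`, `h ≡ a (mod q)`, are differences of two primes; more precisely, EVERY window
`(u, v] ⊆ (0, x]` of length at least `x / (log x) ^ A` contains at least one twentieth of the number of primes `p`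
with `p + h` prime which Hardy and Littlewood predict. The same holds for EVERY residue class (for instance for the
multiples of `q`), if `q` is not divisible by a member of a set `D` of at most `(log x) ^ c` integers, all of them
larger than any given power of `log x`.

Definitions used: `sing h = 2 C₂ ∏_{p ∣ h, p > 2} (p - 1) / (p - 2)` with `C₂ = ∏_{p > 2} (1 - 1 / (p - 1) ^ 2)`
(in `Pool.Agent.H560R3.GB`).

Proof (`R460/GS`, `R460/GR`, `R460/GP`). Let `G` be `log N` times the indicator function of the integers without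
prime factors up to `N ^ (3 / 10)`, `N = 2 ⌊x⌋`. Then `Λ(m) Λ(n) ≥ Λ(m) G(n) + G(m) Λ(n) - G(m) G(n)` up to prime
powers, and the mean value `w` of `G` satisfies `2 w - w ^ 2 > 55 / 1000`. The difference of `G` and a sieve model
is a bilinear sum with flexible lengths; so its sum over the characters modulo `q` is small in mean square, for
all but few characters near the fractions with small denominators, and for all characters elsewhere, if
`q ≤ N ^ (7 / 10 - ρ)`. The few bad characters have a large conductor, and the correlations of the primes with the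
shifted characters `χ (a + n)` of a large conductor are small, if the common divisor of `a` and `q` is small.
-/

set_option autoImplicit false

namespace Pool.Agent.Results.MP_70e905_nt.PairsEveryModulus

open Pool.Agent.H560R3.GB (sing)

/-- The number of the primes `p` with `u < p ≤ v` such that `p + h` is a prime. -/
noncomputable def pairs (h : ℕ) (u v : ℝ) : ℕ :=
  Set.ncard {p : ℕ | p.Prime ∧ (p + h).Prime ∧ u < (p : ℝ) ∧ (p : ℝ) ≤ v}

/-- Every window `(u, v] ⊆ (0, x]` of length at least `x / (log x) ^ A` contains at least one twentieth of the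
number of primes `p` with `p + h` prime which Hardy and Littlewood predict. -/
def AllWindows (A : ℕ) (x : ℝ) (h : ℕ) : Prop :=
  ∀ u v : ℝ, 0 ≤ u → v ≤ x → x / Real.log x ^ A ≤ v - u →
    1 / 20 * (sing h * (v - u) / Real.log x ^ 2) ≤ (pairs h u v : ℝ)

/-- The even integers `h ≡ a (mod q)` with `0 < h ≤ x` which are not the difference of two primes or for which
`AllWindows A x h` fails. -/
def exceptional (A : ℕ) (x : ℝ) (q : ℕ) (a : ℤ) : Set ℕ :=
  {h : ℕ | 0 < h ∧ (h : ℝ) ≤ x ∧ 2 ∣ h ∧ (h : ℤ) ≡ a [ZMOD q] ∧
    ¬ ((∃ p p' : ℕ, p.Prime ∧ p'.Prime ∧ (p' : ℤ) - p = h) ∧ AllWindows A x h)}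

/-- For all `ρ > 0`, `A` and `T` there is `c` such that for all `B` and all sufficiently large real `x` there is a
finite set `D` of at most `(log x) ^ c` integers, all of them larger than `(log x) ^ B`, such that for every integer
`1 ≤ q ≤ x ^ (7 / 10 - ρ)` and every integer `a` such that `gcd (a, q) ≤ (log x) ^ T` or `q` is not divisible by a
member of `D`, all but at most `x / (q (log x) ^ A)` of the even integers `0 < h ≤ x`, `h ≡ a (mod q)`, are
differences of two primes, and every window `(u, v] ⊆ (0, x]` of length at least `x / (log x) ^ A` contains at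
least one twentieth of the predicted number of primes `p` with `p + h` prime. -/
theorem result (ρ : ℝ) (hρ : 0 < ρ) (A T : ℕ) :
    ∃ c : ℕ, ∀ B : ℕ, ∃ x₀ : ℝ, ∀ x : ℝ, x₀ ≤ x → ∃ D : Finset ℕ, (D.card : ℝ) ≤ Real.log x ^ c ∧
      (∀ d ∈ D, Real.log x ^ B < (d : ℝ)) ∧
      ∀ q : ℕ, 1 ≤ q → (q : ℝ) ≤ x ^ (7 / 10 - ρ) → ∀ a : ℤ,
        ((Int.gcd a q : ℝ) ≤ Real.log x ^ T ∨ ∀ d ∈ D, ¬ d ∣ q) →
          (exceptional A x q a).Finite ∧ ((exceptional A x q a).ncard : ℝ) ≤ x / (q * Real.log x ^ A) := by
  obtain ⟨c, hc⟩ := Pool.Agent.R460.GP.pairs_few ρ hρ A T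
  refine ⟨c, fun B => ?_⟩
  obtain ⟨x₁, h1⟩ := hc B
  obtain ⟨x₂, h2⟩ := Filter.eventually_atTop.1 (Real.tendsto_log_atTop.eventually_ge_atTop (1 : ℝ))
  refine ⟨max (max x₁ x₂) 1, fun x hx => ?_⟩
  obtain ⟨D, hD1, hD2, hD⟩ := h1 x ((le_max_left _ _).trans ((le_max_left _ _).trans hx))
  have hl := h2 x ((le_max_right _ _).trans ((le_max_left _ _).trans hx))
  have hx1 : 1 ≤ x := (le_max_right _ _).trans hx
  refine ⟨D, hD1, hD2, fun q hq hqx a hor => ?_⟩
  have he : exceptional A x q a = Pool.Agent.R460.GP.exceptional A x q a := by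
    ext h
    unfold exceptional Pool.Agent.R460.GP.exceptional
    refine and_congr_right fun h0 => and_congr_right fun h3 => and_congr_right fun _ => and_congr_right fun _ =>
      not_congr ⟨fun h4 => h4.2, fun h4 => ⟨?_, h4⟩⟩
    have h5 := h4 0 x le_rfl le_rfl (by
      rw [sub_zero]
      exact div_le_self (by linarith) (one_le_pow₀ hl))
    have h6 : 1 ≤ sing h := Pool.Agent.R460.GS.one_le_sing h
    have h7 : 0 < 1 / 20 * (sing h * (x - 0) / Real.log x ^ 2) := by
      have : 0 < x - 0 := by linarith
      positivity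
    have h8 : 0 < Pool.Agent.R460.GP.pairs h 0 x := by
      have : (0 : ℝ) < (Pool.Agent.R460.GP.pairs h 0 x : ℝ) := lt_of_lt_of_le h7 h5
      exact_mod_cast this
    obtain ⟨p, hp⟩ := Set.nonempty_of_ncard_ne_zero h8.ne'
    exact ⟨p, p + h, hp.1, hp.2.1, by push_cast; ring⟩
  rw [he]
  exact hD q hq hqx a hor

end Pool.Agent.Results.MP_70e905_nt.PairsEveryModulus
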